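import Pool.Agent.Helper66_BN.Stmts
import Pool.Agent.Helper20_PP.MovCore
import Pool.Agent.Helper66_PP.PosX

/-!
# Squad PP, part BN: BAL (BN5), the idempotent of the normal subgroup
-/

open scoped BigOperators

noncomputable section

namespace Pool.Agent.PP.BN.H40

open Pool.Agent.Helper51_AWC Pool.Agent.Helper79_WRA Pool.Agent.PP

section basics

variable {F D : Type} [Field F] [Group D] [Finite D]

theorem ev_sub' {m : ℕ} (ρ : D →* Matrix (Fin m) (Fin m) F) (a b : D → F) :
    ev ρ (fun x => a x - b x) = ev ρ a - ev ρ b := by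
  have := Fintype.ofFinite D
  simp only [ev, finsum_eq_sum_of_fintype, sub_smul, Finset.sum_sub_distrib]

/-- functions supported on `M` and intertwining matrices -/
theorem ev_mul_right {m k : ℕ} (M : Subgroup D) (ρ : D →* Matrix (Fin m) (Fin m) F)
    (σ : M →* Matrix (Fin k) (Fin k) F) (X : Matrix (Fin m) (Fin k) F)
    (hX : ∀ g : M, ρ g * X = X * σ g) (α : D → F) (hα : ∀ x, x ∉ M → α x = 0) :
    ev ρ α * X = X * ev σ (fun t : M => α t) := by
  have h1 := Fintype.ofFinite D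
  have h2 := Fintype.ofFinite M
  have h3 : ev ρ α = ∑ t : M, α t • ρ t := by
    rw [ev, finsum_eq_sum_of_fintype]
    symm
    refine Fintype.sum_of_injective (fun t : M => (t : D)) Subtype.val_injective _ _ ?_
      fun _ => rfl
    intro x hx
    rw [hα x, zero_smul]
    intro hxM
    exact hx ⟨⟨x, hxM⟩, rfl⟩
  rw [h3, ev, finsum_eq_sum_of_fintype, Matrix.sum_mul, Matrix.mul_sum]
  refine Finset.sum_congr rfl fun t _ => ?_
  rw [Matrix.smul_mul, Matrix.mul_smul, hX]

theorem scalar_eq_smul {m : ℕ} (w : F) : Matrix.scalar (Fin m) w = w • (1 : Matrix _ _ F) := by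
  rw [Matrix.scalar_apply, Matrix.smul_one_eq_diagonal]

theorem smul_one_inj {m : ℕ} (hm : 0 < m) {w w' : F}
    (h : w • (1 : Matrix (Fin m) (Fin m) F) = w' • 1) : w = w' := by
  have := congrFun (congrFun h ⟨0, hm⟩) ⟨0, hm⟩
  simpa using this

theorem ev_iterate {m : ℕ} (ρ : D →* Matrix (Fin m) (Fin m) F) (a b : D → F) (n : ℕ) :
    ev ρ ((mulF a)^[n] b) = ev ρ a ^ n * ev ρ b := by
  induction n with
  | zero => rw [pow_zero, one_mul]; rfl
  | succ n ih => rw [Function.iterate_succ_apply', H20.ev_mulF, ih, pow_succ', mul_assoc]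

/-- A class function supported on elements of defect zero acts as zero where a positive central
idempotent acts as one. -/
theorem ev_zero_of_pos (hEig : EigStmt) {ℓ : ℕ} {e : D → F} (hp : Pos ℓ e ⊤) {a : D → F}
    (ha : IsCl a) (had : ∀ x, a x ≠ 0 → ¬ ℓ ∣ Nat.card (Subgroup.centralizer ({x} : Set D)))
    {m : ℕ} {ρ : D →* Matrix (Fin m) (Fin m) F} (hρ : IsIrr ρ) (he : ev ρ e = 1) :
    ev ρ a = 0 := by
  have h1 := Fintype.ofFinite D
  have h2 : Fintype (ConjClasses D) := Fintype.ofFinite _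
  rw [H66.cl_eq_sum ha, ev, finsum_eq_sum_of_fintype]
  simp only [Finset.sum_apply, Pi.smul_apply, Finset.sum_smul]
  rw [Finset.sum_comm]
  refine Finset.sum_eq_zero fun c _ => ?_
  by_cases h0 : a (c.out : D) = 0
  · refine Finset.sum_eq_zero fun x _ => ?_
    rw [h0, zero_smul, zero_smul]
  · obtain ⟨n, hn⟩ := hp c.out (Subgroup.mem_top _) (by
      rw [inf_top_eq]; exact had _ h0)
    have h3 := ev_iterate ρ (clsum F ⊤ (c.out : D)) e n
    have h4 : ev ρ (0 : D → F) = 0 := by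
      rw [ev, finsum_eq_sum_of_fintype]
      exact Finset.sum_eq_zero fun x _ => by rw [Pi.zero_apply, zero_smul]
    rw [hn, h4, he, mul_one] at h3
    obtain ⟨w, hw, -, -⟩ := hEig F D m ρ hρ (clsum F ⊤ (c.out : D)) (Pool.Agent.AWR.H39.clsum_cl _)
    rw [hw, ← map_pow] at h3
    have h5 : w ^ n = 0 := by
      have h6 := congrFun (congrFun h3.symm ⟨0, hρ.1⟩) ⟨0, hρ.1⟩
      simpa [Matrix.scalar_apply] using h6
    have h6 : w = 0 := IsNilpotent.eq_zero ⟨n, h5⟩
    rw [h6, map_zero, ev, finsum_eq_sum_of_fintype] at hw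
    have h7 : ∑ x : D, (a (c.out : D) • clsum F ⊤ (c.out : D) x) • ρ x =
        a (c.out : D) • ∑ x : D, clsum F ⊤ (c.out : D) x • ρ x := by
      rw [Finset.smul_sum]
      refine Finset.sum_congr rfl fun x _ => ?_
      rw [smul_assoc]
    rw [h7, hw, smul_zero]

/-- A trace from `1` is a trace from `U`. -/
theorem trace_coset {m : ℕ} (ρ : D →* Matrix (Fin m) (Fin m) F) (U : Subgroup D)
    (φ : Matrix (Fin m) (Fin m) F) : ∃ φ' : Matrix (Fin m) (Fin m) F,
    ∑ᶠ g : D, ρ g * φ * ρ g⁻¹ = ∑ᶠ u : U, ρ u * φ' * ρ (u : D)⁻¹ := by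
  have h1 := Fintype.ofFinite D
  have h2 := Fintype.ofFinite U
  have h3 := Fintype.ofFinite (D ⧸ U)
  have hb : Function.Bijective (fun p : (D ⧸ U) × U => (p.2 : D)⁻¹ * (p.1.out : D)⁻¹) := by
    constructor
    · rintro ⟨q, u⟩ ⟨q', u'⟩ h
      have h4 : (q.out : D) * u = q'.out * u' := by
        have := congrArg (fun x => x⁻¹) h
        simpa [mul_inv_rev] using this
      have h5 : q = q' := by
        have h6 := congrArg (fun x : D => (QuotientGroup.mk x : D ⧸ U)) h4
        simpa [QuotientGroup.mk_mul_of_mem] using h6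
      subst h5
      have h7 : (u : D) = u' := mul_left_cancel h4
      exact Prod.ext rfl (Subtype.ext h7)
    · intro g
      have h4 : ((QuotientGroup.mk g⁻¹ : D ⧸ U).out : D)⁻¹ * g⁻¹ ∈ U := by
        rw [← QuotientGroup.eq]
        exact Quotient.out_eq' _
      refine ⟨(QuotientGroup.mk g⁻¹, ⟨_, h4⟩), ?_⟩
      simp [mul_inv_rev]
  refine ⟨∑ q : D ⧸ U, ρ (q.out : D)⁻¹ * φ * ρ (q.out : D), ?_⟩
  rw [finsum_eq_sum_of_fintype, finsum_eq_sum_of_fintype, ← hb.sum_comp, Fintype.sum_prod_type,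
    Finset.sum_comm, ← Equiv.sum_comp (Equiv.inv U)]
  refine Finset.sum_congr rfl fun u _ => ?_
  rw [Finset.mul_sum, Finset.sum_mul]
  refine Finset.sum_congr rfl fun q _ => ?_
  simp only [Equiv.inv_apply, mul_inv_rev, inv_inv, map_mul, InvMemClass.coe_inv]
  simp only [mul_assoc]

end basics

theorem bal (hBru : BruStmt) (hDze : DzeStmt) (hPcm : PcmStmt) (hTrz : TrzStmt) (hCns : CnsStmt)
    (hEhw : EhwStmt) (_ : IbnStmt) (hEig : EigStmt) : AlpStmt := by
  intro ℓ _ F _ hF D _ _ M U T n hR ζ e he hζ he0 hp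
  have hMn := hR.normal
  obtain ⟨hez, -, hbru⟩ := hBru ℓ F hF D M U T n hR ζ
  obtain ⟨-, h1, h2, h3⟩ := hbru e he hζ he0 hp
  have hdz := hDze ℓ F hF D M U T n hR _ h2 h3
  obtain ⟨a, ha, haM, had, hacts⟩ := hPcm ℓ F hF D M U T n hR
  have hezM : ∀ x, x ∉ M → ez ζ x = 0 := by
    intro x hx
    unfold ez
    rw [dif_neg]
    intro h
    exact hx (hR.TM (hR.zT h))
  have hmM : ∀ x, x ∉ M → mulF (ez ζ) a x = 0 := by
    intro x hx
    unfold mulF
    have := Fintype.ofFinite D
    rw [finsum_eq_sum_of_fintype]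
    refine Finset.sum_eq_zero fun t _ => ?_
    by_cases ht : t ∈ M
    · rw [haM (t⁻¹ * x), mul_zero]
      intro h
      exact hx (by simpa using M.mul_mem ht h)
    · rw [hezM t ht, zero_mul]
  have hαM : ∀ x, x ∉ M → (fun x => ez ζ x - mulF (ez ζ) a x) x = 0 := by
    intro x hx
    change ez ζ x - mulF (ez ζ) a x = 0
    rw [hezM x hx, hmM x hx, sub_zero]
  have hcl : IsCl (fun x => ez ζ x - mulF (ez ζ) a x) := by
    intro x y
    change ez ζ _ - mulF (ez ζ) a _ = ez ζ x - mulF (ez ζ) a x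
    rw [hez.1, H20.isCl_mulF hez.1 ha]
  -- the action on the irreducible representations of `M`
  have hσ : ∀ (k : ℕ) (σ : M →* Matrix (Fin k) (Fin k) F),
      ev σ (fun t : M => (fun x => ez ζ x - mulF (ez ζ) a x) t) =
        ev σ (fun t : M => ez ζ t) - ev σ (fun t : M => ez ζ t) * ev σ (fun t : M => a t) := by
    intro k σ
    change ev σ (fun t : M => ez ζ t - mulF (ez ζ) a t) = _
    rw [ev_sub' σ (fun t : M => ez ζ t) (fun t : M => mulF (ez ζ) a t),
      H20.ev_res_mul σ hezM]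
  have hσ1 : ∀ (k : ℕ) (σ : M →* Matrix (Fin k) (Fin k) F), IsIrr σ →
      (SZ (U.subgroupOf M) σ → ev σ (fun t : M => (fun x => ez ζ x - mulF (ez ζ) a x) t) =
        ev σ (fun t : M => ez ζ t)) ∧
      (¬ SZ (U.subgroupOf M) σ →
        ev σ (fun t : M => (fun x => ez ζ x - mulF (ez ζ) a x) t) = 0) := by
    intro k σ hi
    refine ⟨fun hs => ?_, fun hs => ?_⟩
    · rw [hσ, (hacts k σ hi).1 hs, mul_zero, sub_zero]
    · rw [hσ, (hacts k σ hi).2 hs, mul_one, sub_self]
  refine ⟨fun x => ez ζ x - mulF (ez ζ) a x, hcl, hαM, ?_, hσ1⟩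
  intro m ρ hρ
  obtain ⟨k, σ, X, Y, hi, hYX, hX, hY⟩ := hCns ℓ F hF D M hMn hR.index m ρ hρ
  obtain ⟨w, hw, -, -⟩ := hEig F D m ρ hρ _ hcl
  have h4 := ev_mul_right M ρ σ X hX _ hαM
  have h5 : ev σ (fun t : M => (fun x => ez ζ x - mulF (ez ζ) a x) t) = w • 1 := by
    have h6 := congrArg (fun Z => Y * Z) h4
    change Y * (ev ρ _ * X) = Y * (X * _) at h6
    rw [← Matrix.mul_assoc, ← Matrix.mul_assoc, hYX, Matrix.one_mul, hw, scalar_eq_smul,
      Matrix.mul_smul, Matrix.smul_mul, Matrix.mul_one, hYX] at h6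
    exact h6.symm
  by_cases hs : SZ (U.subgroupOf M) σ
  · -- the sum of `U` acts as zero on the constituent
    have h6 : ev ρ (fun x => ez ζ x - e x) = 0 := by
      obtain ⟨w', hw', -, hw''⟩ := hEig F D m ρ hρ (fun x => ez ζ x - e x) h2.1
      rcases hw'' h2 with h7 | h7
      · rw [hw', h7, map_zero]
      · exfalso
        rw [h7, map_one] at hw'
        obtain ⟨φ, hφ⟩ := hTrz ℓ F hF D (fun x => ez ζ x - e x) h2.1 hdz m ρ
        obtain ⟨φ', hφ'⟩ := trace_coset ρ U φ
        rw [hw', hφ'] at hφ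
        obtain ⟨v, μ, hv0, hvU, -⟩ := hEhw ℓ F hF M (U.subgroupOf M) (T.subgroupOf M) n hR.bn k σ hi
        have f1 := Fintype.ofFinite U
        have f2 := Fintype.ofFinite (U.subgroupOf M)
        have h8 : (1 : Matrix (Fin k) (Fin k) F) =
            ∑ u : U.subgroupOf M, σ (u : M) * (Y * φ' * X) * σ (u : M)⁻¹ := by
          have h9 : (1 : Matrix (Fin k) (Fin k) F) = Y * (1 : Matrix (Fin m) (Fin m) F) * X := by
            rw [Matrix.mul_one, hYX]
          rw [h9, hφ, finsum_eq_sum_of_fintype, Matrix.mul_sum, Matrix.sum_mul,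
            ← Equiv.sum_comp (Subgroup.subgroupOfEquivOfLe hR.UM).toEquiv]
          refine Finset.sum_congr rfl fun u _ => ?_
          have e1 := hY (u : M)
          have e2 := hX (u : M)⁻¹
          have e3 : (((Subgroup.subgroupOfEquivOfLe hR.UM).toEquiv u : U) : D) = ((u : M) : D) :=
            rfl
          rw [e3]
          rw [Subgroup.coe_inv] at e2
          calc Y * (ρ ((u : M) : D) * φ' * ρ ((u : M) : D)⁻¹) * X
              = (Y * ρ ((u : M) : D)) * φ' * (ρ ((u : M) : D)⁻¹ * X) := by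
                simp only [Matrix.mul_assoc]
            _ = σ (u : M) * (Y * φ' * X) * σ (u : M)⁻¹ := by
                rw [e1, e2]; simp only [Matrix.mul_assoc]
        apply hv0
        have h10 : (1 : Matrix (Fin k) (Fin k) F).mulVec v =
            (∑ u : U.subgroupOf M, σ (u : M)).mulVec ((Y * φ' * X).mulVec v) := by
          rw [h8, Matrix.sum_mulVec, Matrix.sum_mulVec]
          refine Finset.sum_congr rfl fun u _ => ?_
          rw [← Matrix.mulVec_mulVec, ← Matrix.mulVec_mulVec,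
            hvU _ ((U.subgroupOf M).inv_mem u.2)]
        have h11 : ∑ u : U.subgroupOf M, σ (u : M) = 0 := by
          rw [← finsum_eq_sum_of_fintype]; exact hs
        rw [h11, Matrix.zero_mulVec, Matrix.one_mulVec] at h10
        exact h10
    -- `e` acts like `ez`
    have h7 : ev ρ e = ev ρ (ez ζ) := by
      rw [ev_sub' ρ (ez ζ) e, sub_eq_zero] at h6
      exact h6.symm
    obtain ⟨w', hw', -, -⟩ := hEig F D m ρ hρ (ez ζ) hez.1
    have h8 := ev_mul_right M ρ σ X hX _ hezM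
    have h9 : ev σ (fun t : M => ez ζ t) = w' • 1 := by
      have h6 := congrArg (fun Z => Y * Z) h8
      change Y * (ev ρ _ * X) = Y * (X * _) at h6
      rw [← Matrix.mul_assoc, ← Matrix.mul_assoc, hYX, Matrix.one_mul, hw', scalar_eq_smul,
        Matrix.mul_smul, Matrix.smul_mul, Matrix.mul_one, hYX] at h6
      exact h6.symm
    have h10 : w = w' := smul_one_inj hi.1 (by rw [← h5, ← h9, (hσ1 k σ hi).1 hs])
    rw [hw, h7, hw', h10]
  · -- the sum of `U` does not act as zero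
    have h6 : w = 0 := smul_one_inj hi.1 (by rw [← h5, (hσ1 k σ hi).2 hs, zero_smul])
    rw [hw, h6, map_zero]
    obtain ⟨w', hw', -, hw''⟩ := hEig F D m ρ hρ e he.1
    rcases hw'' he with h7 | h7
    · rw [hw', h7, map_zero]
    · exfalso
      rw [h7, map_one] at hw'
      have h8 := ev_zero_of_pos hEig hp ha had hρ hw'
      have h9 := ev_mul_right M ρ σ X hX _ haM
      rw [h8, Matrix.zero_mul, (hacts k σ hi).2 hs, Matrix.mul_one] at h9
      rw [← h9, Matrix.mul_zero] at hYX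
      have h10 := congrFun (congrFun hYX ⟨0, hi.1⟩) ⟨0, hi.1⟩
      simp at h10

end Pool.Agent.PP.BN.H40
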